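import Mathlib
import Pool.Agent.H171R2.RupCore

/-!
# Certificates for the non-existence of `P_5`-free graphs with two prescribed colourings

Finitely many named vertices `t 0, t 1, ...` of a graph are considered; each one is a neighbour of
an earlier one, with a prescribed colour in the frozen colouring.  The variables are the
adjacencies of the named vertices and their colours in the 3-colouring.
-/

set_option autoImplicit false

namespace Pool.Agent.Q277.Froz

open Pool.Agent.H171R2.Rup

/-- variable of the adjacency of the named vertices `u` and `v` -/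
def ev (u v : ℕ) : ℕ :=
  match Nat.blt u v with
  | true => Nat.add (Nat.mul 32 u) v
  | false => Nat.add (Nat.mul 32 v) u

/-- variable of the statement that the named vertex `u` has colour `i` -/
def cv (u i : ℕ) : ℕ := Nat.add 1024 (Nat.add (Nat.mul 4 u) i)

def sh (v : ℕ) : ℕ := Nat.shiftLeft 1 v

inductive Ax where
  | P (a b c d e : ℕ)
  | C (u v i : ℕ)
  | L (u : ℕ)
  | M (u i j : ℕ)
  | A (k : ℕ)
  | R (k : ℕ)

/-- positive literal of the adjacency of `u` and `v`, absent when the frozen colours agree -/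
def pe (fc : List ℕ) (u v : ℕ) : ℕ :=
  match Nat.beq (fc.getD u 0) (fc.getD v 0) with
  | true => 0
  | false => sh (ev u v)

def guard (b : Bool) (c : ℕ × ℕ) : ℕ × ℕ :=
  match b with
  | true => c
  | false => (1, 1)

theorem guard_valid {val : ℕ → Prop} {b : Bool} {c : ℕ × ℕ} (h : b = true → Valid val c) :
    Valid val (guard b c) := by
  cases b with
  | true => exact h rfl
  | false => exact valid_taut val

def lt (T i : ℕ) : Bool := Nat.blt i T

/-- the clause of an axiom -/
def axM (T : ℕ) (par fc : List ℕ) : Ax → ℕ × ℕ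
  | .P a b c d e =>
    guard (lt T a && lt T b && lt T c && lt T d && lt T e)
      (Nat.lor (pe fc a c) (Nat.lor (pe fc a d) (Nat.lor (pe fc a e) (Nat.lor (pe fc b d)
        (Nat.lor (pe fc b e) (pe fc c e))))),
       Nat.lor (sh (ev a b)) (Nat.lor (sh (ev b c)) (Nat.lor (sh (ev c d)) (sh (ev d e)))))
  | .C u v i =>
    guard (lt T u && lt T v && lt 3 i)
      (0, Nat.lor (sh (ev u v)) (Nat.lor (sh (cv u i)) (sh (cv v i))))
  | .L u => guard (lt T u) (Nat.lor (sh (cv u 0)) (Nat.lor (sh (cv u 1)) (sh (cv u 2))), 0)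
  | .M u i j =>
    guard (lt T u && lt 3 i && lt i j && lt 3 j) (0, Nat.lor (sh (cv u i)) (sh (cv u j)))
  | .A k => guard (lt T k && lt k 0) (sh (ev (par.getD k 0) k), 0)
  | .R 0 => (sh (cv 0 0), 0)
  | .R 1 => (sh (cv 1 1), 0)
  | .R _ => (sh (cv 2 1), 0)

/-- the valuation given by named vertices -/
def val {V : Type} (G : SimpleGraph V) (c : V → Fin 3) (t : ℕ → V) (x : ℕ) : Prop :=
  if x < 1024 then G.Adj (t (x / 32)) (t (x % 32)) else (c (t ((x - 1024) / 4)) : ℕ) = (x - 1024) % 4

/-- what the named vertices have to satisfy -/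
structure Ok {V : Type} (G : SimpleGraph V) (c : V → Fin 3) (f : V → Fin 4) (T : ℕ)
    (par fc : List ℕ) (t : ℕ → V) : Prop where
  P5 : ∀ a b c d e, G.Adj a b → G.Adj b c → G.Adj c d → G.Adj d e → ¬ G.Adj a c → ¬ G.Adj a d →
    ¬ G.Adj a e → ¬ G.Adj b d → ¬ G.Adj b e → ¬ G.Adj c e → False
  hc : ∀ u v, G.Adj u v → c u ≠ c v
  hf : ∀ u v, G.Adj u v → f u ≠ f v
  hT : T ≤ 32
  col : ∀ k, k < T → (f (t k) : ℕ) = fc.getD k 0
  adj : ∀ k, k < T → 0 < k → par.getD k 0 < T ∧ G.Adj (t (par.getD k 0)) (t k)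
  r0 : c (t 0) = 0
  r1 : c (t 1) = 1
  r2 : c (t 2) = 1

section

variable {V : Type} {G : SimpleGraph V} {c : V → Fin 3} {f : V → Fin 4} {T : ℕ}
  {par fc : List ℕ} {t : ℕ → V}

theorem val_ev {u v : ℕ} (hu : u < 32) (hv : v < 32) :
    val G c t (ev u v) ↔ G.Adj (t u) (t v) := by
  rw [ev]
  cases h : Nat.blt u v with
  | true =>
    have e : Nat.add (Nat.mul 32 u) v = 32 * u + v := rfl
    simp only [val, e]
    rw [if_pos (by omega)]
    have h1 : (32 * u + v) / 32 = u := by omega
    have h2 : (32 * u + v) % 32 = v := by omega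
    rw [h1, h2]
  | false =>
    have e : Nat.add (Nat.mul 32 v) u = 32 * v + u := rfl
    simp only [val, e]
    rw [if_pos (by omega)]
    have h1 : (32 * v + u) / 32 = v := by omega
    have h2 : (32 * v + u) % 32 = u := by omega
    rw [h1, h2]
    exact G.adj_comm _ _

theorem val_cv {u i : ℕ} (hi : i < 4) : val G c t (cv u i) ↔ (c (t u) : ℕ) = i := by
  have e : cv u i = 1024 + (4 * u + i) := rfl
  rw [e, val, if_neg (by omega)]
  have h1 : (1024 + (4 * u + i) - 1024) / 4 = u := by omega
  have h2 : (1024 + (4 * u + i) - 1024) % 4 = i := by omega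
  rw [h1, h2]

theorem sh_bit (v : ℕ) : (sh v).testBit v = true := by
  rw [sh, testBit_shl1]
  simp

theorem lor_left {a b v : ℕ} (h : a.testBit v = true) : (Nat.lor a b).testBit v = true := by
  change (a ||| b).testBit v = true
  rw [Nat.testBit_lor, h, Bool.true_or]

theorem lor_right {a b v : ℕ} (h : b.testBit v = true) : (Nat.lor a b).testBit v = true := by
  change (a ||| b).testBit v = true
  rw [Nat.testBit_lor, h, Bool.or_true]

theorem lt_iff {T i : ℕ} (h : lt T i = true) : i < T := by
  rwa [lt, Nat.blt_eq] at h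

theorem not_adj_of_pe (hok : Ok G c f T par fc t) {p : ℕ} {u v : ℕ} (hu : u < T) (hv : v < T)
    (hp : ∀ x, p.testBit x = true → ¬ val G c t x)
    (hle : ∀ x, (pe fc u v).testBit x = true → p.testBit x = true) : ¬ G.Adj (t u) (t v) := by
  have hT := hok.hT
  cases h : Nat.beq (fc.getD u 0) (fc.getD v 0) with
  | true =>
    have h1 := Nat.eq_of_beq_eq_true h
    intro hadj
    apply hok.hf _ _ hadj
    apply Fin.ext
    rw [hok.col u hu, hok.col v hv, h1]
  | false =>
    intro hadj
    apply hp (ev u v)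
    · apply hle
      rw [pe, h]
      exact sh_bit _
    · exact (val_ev (by omega) (by omega)).2 hadj

theorem axM_valid (hok : Ok G c f T par fc t) (a : Ax) :
    Valid (val G c t) (axM T par fc a) := by
  have hT := hok.hT
  cases a with
  | P a b c' d e =>
    refine guard_valid fun h => ?_
    simp only [Bool.and_eq_true] at h
    obtain ⟨⟨⟨⟨ha, hb⟩, hc⟩, hd⟩, he⟩ := h
    have ha := lt_iff ha
    have hb := lt_iff hb
    have hc := lt_iff hc
    have hd := lt_iff hd
    have he := lt_iff he
    by_contra hcon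
    have hn : ∀ x, (Nat.lor (sh (ev a b)) (Nat.lor (sh (ev b c')) (Nat.lor (sh (ev c' d))
        (sh (ev d e))))).testBit x = true → val G c t x := by
      intro x hx
      by_contra hval
      exact hcon ⟨x, Or.inr ⟨hx, hval⟩⟩
    have hp : ∀ x, (Nat.lor (pe fc a c') (Nat.lor (pe fc a d) (Nat.lor (pe fc a e)
        (Nat.lor (pe fc b d) (Nat.lor (pe fc b e) (pe fc c' e)))))).testBit x = true →
        ¬ val G c t x := by
      intro x hx hval
      exact hcon ⟨x, Or.inl ⟨hx, hval⟩⟩
    have e1 := (val_ev (by omega) (by omega)).1 (hn (ev a b) (lor_left (sh_bit _)))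
    have e2 := (val_ev (by omega) (by omega)).1 (hn (ev b c') (lor_right (lor_left (sh_bit _))))
    have e3 := (val_ev (by omega) (by omega)).1
      (hn (ev c' d) (lor_right (lor_right (lor_left (sh_bit _)))))
    have e4 := (val_ev (by omega) (by omega)).1
      (hn (ev d e) (lor_right (lor_right (lor_right (sh_bit _)))))
    refine hok.P5 _ _ _ _ _ e1 e2 e3 e4 ?_ ?_ ?_ ?_ ?_ ?_
    · exact not_adj_of_pe hok ha hc hp fun x hx => lor_left hx
    · exact not_adj_of_pe hok ha hd hp fun x hx => lor_right (lor_left hx)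
    · exact not_adj_of_pe hok ha he hp fun x hx => lor_right (lor_right (lor_left hx))
    · exact not_adj_of_pe hok hb hd hp fun x hx =>
        lor_right (lor_right (lor_right (lor_left hx)))
    · exact not_adj_of_pe hok hb he hp fun x hx =>
        lor_right (lor_right (lor_right (lor_right (lor_left hx))))
    · exact not_adj_of_pe hok hc he hp fun x hx =>
        lor_right (lor_right (lor_right (lor_right (lor_right hx))))
  | C u v i =>
    refine guard_valid fun h => ?_
    simp only [Bool.and_eq_true] at h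
    obtain ⟨⟨hu, hv⟩, hi⟩ := h
    have hu := lt_iff hu
    have hv := lt_iff hv
    have hi := lt_iff hi
    by_cases h1 : G.Adj (t u) (t v)
    · by_cases h2 : (c (t u) : ℕ) = i
      · refine ⟨cv v i, Or.inr ⟨lor_right (lor_right (sh_bit _)), fun h3 => ?_⟩⟩
        apply hok.hc _ _ h1
        apply Fin.ext
        rw [h2, (val_cv (by omega)).1 h3]
      · exact ⟨cv u i, Or.inr ⟨lor_right (lor_left (sh_bit _)),
          fun h3 => h2 ((val_cv (by omega)).1 h3)⟩⟩
    · exact ⟨ev u v, Or.inr ⟨lor_left (sh_bit _),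
        fun h3 => h1 ((val_ev (by omega) (by omega)).1 h3)⟩⟩
  | L u =>
    refine guard_valid fun h => ?_
    have h3 : (c (t u) : ℕ) = 0 ∨ (c (t u) : ℕ) = 1 ∨ (c (t u) : ℕ) = 2 := by
      have := (c (t u)).isLt
      omega
    rcases h3 with h3 | h3 | h3
    · exact ⟨cv u 0, Or.inl ⟨lor_left (sh_bit _), (val_cv (by omega)).2 h3⟩⟩
    · exact ⟨cv u 1, Or.inl ⟨lor_right (lor_left (sh_bit _)), (val_cv (by omega)).2 h3⟩⟩
    · exact ⟨cv u 2, Or.inl ⟨lor_right (lor_right (sh_bit _)), (val_cv (by omega)).2 h3⟩⟩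
  | M u i j =>
    refine guard_valid fun h => ?_
    simp only [Bool.and_eq_true] at h
    obtain ⟨⟨⟨hu, hi⟩, hij⟩, hj⟩ := h
    have hi := lt_iff hi
    have hij : j < i := lt_iff hij
    have hj := lt_iff hj
    by_cases h2 : (c (t u) : ℕ) = i
    · refine ⟨cv u j, Or.inr ⟨lor_right (sh_bit _), fun h3 => ?_⟩⟩
      have := (val_cv (by omega)).1 h3
      omega
    · exact ⟨cv u i, Or.inr ⟨lor_left (sh_bit _), fun h3 => h2 ((val_cv (by omega)).1 h3)⟩⟩
  | A k =>
    refine guard_valid fun h => ?_
    simp only [Bool.and_eq_true] at h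
    obtain ⟨hk, hk0⟩ := h
    have hk := lt_iff hk
    by_cases h0 : 0 < k
    · obtain ⟨h1, h2⟩ := hok.adj k hk h0
      exact ⟨ev (par.getD k 0) k, Or.inl ⟨sh_bit _, (val_ev (by omega) (by omega)).2 h2⟩⟩
    · have := lt_iff hk0
      omega
  | R k =>
    have key : ∀ x, val G c t x → Valid (val G c t) (sh x, 0) :=
      fun x hx => ⟨x, Or.inl ⟨sh_bit x, hx⟩⟩
    have k0 : val G c t (cv 0 0) := (val_cv (by omega)).2 (by rw [hok.r0]; rfl)
    have k1 : val G c t (cv 1 1) := (val_cv (by omega)).2 (by rw [hok.r1]; rfl)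
    have k2 : val G c t (cv 2 1) := (val_cv (by omega)).2 (by rw [hok.r2]; rfl)
    match k with
    | 0 => exact key _ k0
    | 1 => exact key _ k1
    | (k + 2) => exact key _ k2

def buildT (T : ℕ) (par fc : List ℕ) : List Ax → Tr → ℕ → Tr
  | [], t, _ => t
  | a :: as, t, k =>
    let c := axM T par fc a
    buildT T par fc as (t.ins k c.1 c.2) (k + 1)

theorem buildT_valid (hok : Ok G c f T par fc t) : ∀ (l : List Ax) (s : Tr) (k : ℕ),
    (∀ i, Valid (val G c t) (s.get i)) →
      ∀ i, Valid (val G c t) ((buildT T par fc l s k).get i) := by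
  intro l
  induction l with
  | nil => intro s k hs i; exact hs i
  | cons a as ih =>
    intro s k hs
    rw [buildT]
    exact ih _ _ (Tr.get_ins_valid _ _ _ (axM_valid hok a) s k hs)

theorem sound (hok : Ok G c f T par fc t) (ax : List Ax)
    (steps : List (List ℕ × List ℕ × List ℕ))
    (hc : run (buildT T par fc ax .nil 0) ax.length steps = true) : False := by
  refine run_sound (val G c t) _ _ _ ?_ hc
  refine buildT_valid hok _ _ _ ?_
  intro i
  exact valid_taut _

end

end Pool.Agent.Q277.Froz
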