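import Mathlib
import Pool.Agent.Q277.Froz.Data

/-!
# A 3-colourable `P_5`-free graph has no frozen 4-colouring
-/

set_option autoImplicit false

namespace Pool.Agent.Q277.Froz

open SimpleGraph

/-- an induced path on five vertices, as an embedding -/
theorem path5 {V : Type} {G : SimpleGraph V} (hP : IsEmpty (pathGraph 5 ↪g G))
    (a b c d e : V) (h1 : G.Adj a b) (h2 : G.Adj b c) (h3 : G.Adj c d) (h4 : G.Adj d e)
    (n1 : ¬ G.Adj a c) (n2 : ¬ G.Adj a d) (n3 : ¬ G.Adj a e) (n4 : ¬ G.Adj b d)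
    (n5 : ¬ G.Adj b e) (n6 : ¬ G.Adj c e) : False := by
  have dab : a ≠ b := h1.ne
  have dbc : b ≠ c := h2.ne
  have dcd : c ≠ d := h3.ne
  have dde : d ≠ e := h4.ne
  have dac : a ≠ c := by rintro rfl; exact n2 h3
  have dad : a ≠ d := by rintro rfl; exact n1 h3.symm
  have dae : a ≠ e := by rintro rfl; exact n2 h4.symm
  have dbd : b ≠ d := by rintro rfl; exact n5 h4
  have dbe : b ≠ e := by rintro rfl; exact n4 h4.symm
  have dce : c ≠ e := by rintro rfl; exact n5 h2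
  refine hP.false ⟨⟨![a, b, c, d, e], ?_⟩, ?_⟩
  · intro i j hij
    fin_cases i <;> fin_cases j <;> simp_all
  · intro i j
    have s1 := h1.symm
    have s2 := h2.symm
    have s3 := h3.symm
    have s4 := h4.symm
    have m1 : ¬ G.Adj c a := fun h => n1 h.symm
    have m2 : ¬ G.Adj d a := fun h => n2 h.symm
    have m3 : ¬ G.Adj e a := fun h => n3 h.symm
    have m4 : ¬ G.Adj d b := fun h => n4 h.symm
    have m5 : ¬ G.Adj e b := fun h => n5 h.symm
    have m6 : ¬ G.Adj e c := fun h => n6 h.symm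
    rw [pathGraph_adj]
    fin_cases i <;> fin_cases j <;> simp_all

theorem exists_terms {V : Type} (G : SimpleGraph V) (f : V → Fin 4)
    (hs : ∀ (v : V) (i : Fin 4), i ≠ f v → ∃ w, G.Adj v w ∧ f w = i) (par fc : List ℕ) (T m : ℕ)
    (t0 : ℕ → V) (b1 : ∀ k, k < m → (f (t0 k) : ℕ) = fc.getD k 0)
    (b2 : ∀ k, k < m → 0 < k → par.getD k 0 < k ∧ G.Adj (t0 (par.getD k 0)) (t0 k))
    (hpar : ∀ k, k < T → m ≤ k → par.getD k 0 < k ∧ fc.getD k 0 ≠ fc.getD (par.getD k 0) 0 ∧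
      fc.getD k 0 < 4) :
    ∀ n, m ≤ n → n ≤ T → ∃ t : ℕ → V, (∀ k, k < m → t k = t0 k) ∧
      (∀ k, k < n → (f (t k) : ℕ) = fc.getD k 0) ∧
      (∀ k, k < n → 0 < k → par.getD k 0 < k ∧ G.Adj (t (par.getD k 0)) (t k)) := by
  intro n hn
  induction n, hn using Nat.le_induction with
  | base => intro _; exact ⟨t0, fun k _ => rfl, b1, b2⟩
  | succ n hmn ih =>
    intro hnT
    obtain ⟨t, ht0, ht1, ht2⟩ := ih (by omega)
    obtain ⟨hp1, hp2, hp3⟩ := hpar n (by omega) hmn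
    obtain ⟨w, hw1, hw2⟩ := hs (t (par.getD n 0)) ⟨fc.getD n 0, hp3⟩ (by
      intro h
      apply hp2
      rw [← ht1 _ hp1, ← h])
    refine ⟨Function.update t n w, ?_, ?_, ?_⟩
    · intro k hk
      rw [Function.update_of_ne (by omega)]
      exact ht0 k hk
    · intro k hk
      by_cases h : k = n
      · subst h
        rw [Function.update_self, hw2]
      · rw [Function.update_of_ne h]
        exact ht1 k (by omega)
    · intro k hk hk0
      by_cases h : k = n
      · subst h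
        rw [Function.update_self, Function.update_of_ne (by omega)]
        exact ⟨hp1, hw1⟩
      · obtain ⟨h1, h2⟩ := ht2 k (by omega) hk0
        rw [Function.update_of_ne h, Function.update_of_ne (by omega)]
        exact ⟨h1, h2⟩

theorem data_ok : ∀ k, k < T0 → 3 ≤ k → par0.getD k 0 < k ∧
    fc0.getD k 0 ≠ fc0.getD (par0.getD k 0) 0 ∧ fc0.getD k 0 < 4 := by
  decide

/-- the core statement, with the colours of three vertices normalised -/
theorem core {V : Type} (G : SimpleGraph V) (hP : IsEmpty (pathGraph 5 ↪g G)) (c : V → Fin 3)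
    (hc : ∀ u v, G.Adj u v → c u ≠ c v) (f : V → Fin 4) (hf : ∀ u v, G.Adj u v → f u ≠ f v)
    (hs : ∀ (v : V) (i : Fin 4), i ≠ f v → ∃ w, G.Adj v w ∧ f w = i) (r x y : V)
    (hx : G.Adj r x) (hy : G.Adj r y) (fr : f r = 0) (fx : f x = 1) (fy : f y = 2)
    (cr : c r = 0) (cx : c x = 1) (cy : c y = 1) : False := by
  have hbase : ∀ k, k < 3 → k = 0 ∨ k = 1 ∨ k = 2 := by intro k hk; omega
  obtain ⟨t, ht0, ht1, ht2⟩ := exists_terms G f hs par0 fc0 T0 3
    (fun k => if k = 0 then r else if k = 1 then x else y)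
    (by
      intro k hk
      rcases hbase k hk with rfl | rfl | rfl
      · simp [fr, fc0]
      · simp [fx, fc0]
      · simp [fy, fc0])
    (by
      intro k hk hk0
      rcases hbase k hk with rfl | rfl | rfl
      · omega
      · simp [par0, hx]
      · simp [par0, hy])
    data_ok T0 (by decide) le_rfl
  have e0 : t 0 = r := by rw [ht0 0 (by omega)]; rfl
  have e1 : t 1 = x := by rw [ht0 1 (by omega)]; rfl
  have e2 : t 2 = y := by rw [ht0 2 (by omega)]; rfl
  refine sound (G := G) (c := c) (f := f) (T := T0) (par := par0) (fc := fc0) (t := t)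
    ⟨path5 hP, hc, hf, by decide, ht1, ?_, ?_, ?_, ?_⟩ ax0 steps0 check0
  · intro k hk hk0
    obtain ⟨h1, h2⟩ := ht2 k hk hk0
    exact ⟨by omega, h2⟩
  · rw [e0, cr]
  · rw [e1, cx]
  · rw [e2, cy]

theorem perm4 : ∀ a b c : Fin 4, a ≠ b → a ≠ c → b ≠ c →
    ∃ σ : Equiv.Perm (Fin 4), σ a = 0 ∧ σ b = 1 ∧ σ c = 2 := by
  intro a b c hab hac hbc
  have hinj : Function.Injective (![a, b, c] : Fin 3 → Fin 4) := by
    intro i j hij
    fin_cases i <;> fin_cases j <;> simp_all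
  revert a b c
  decide

theorem perm3 : ∀ a b : Fin 3, a ≠ b → ∃ σ : Equiv.Perm (Fin 3), σ a = 0 ∧ σ b = 1 := by
  decide

/-- the core statement, with two neighbours of `r` of the same colour -/
theorem core2 {V : Type} (G : SimpleGraph V) (hP : IsEmpty (pathGraph 5 ↪g G)) (c : V → Fin 3)
    (hc : ∀ u v, G.Adj u v → c u ≠ c v) (f : V → Fin 4) (hf : ∀ u v, G.Adj u v → f u ≠ f v)
    (hs : ∀ (v : V) (i : Fin 4), i ≠ f v → ∃ w, G.Adj v w ∧ f w = i) (r x y : V)
    (hx : G.Adj r x) (hy : G.Adj r y) (fxy : f x ≠ f y) (cxy : c x = c y) : False := by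
  obtain ⟨σ, s0, s1, s2⟩ := perm4 (f r) (f x) (f y) (hf _ _ hx) (hf _ _ hy) fxy
  obtain ⟨τ, t0, t1⟩ := perm3 (c r) (c x) (hc _ _ hx)
  refine core G hP (fun v => τ (c v)) ?_ (fun v => σ (f v)) ?_ ?_ r x y hx hy s0 s1 s2 t0 t1 ?_
  · intro u v huv h
    exact hc u v huv (τ.injective h)
  · intro u v huv h
    exact hf u v huv (σ.injective h)
  · intro v i hi
    obtain ⟨w, hw1, hw2⟩ := hs v (σ.symm i) (by
      intro h
      apply hi
      rw [← h, Equiv.apply_symm_apply])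
    exact ⟨w, hw1, by rw [hw2, Equiv.apply_symm_apply]⟩
  · show τ (c y) = 1
    rw [← cxy]
    exact t1

theorem others4 : ∀ a : Fin 4, ∃ i j k : Fin 4, i ≠ a ∧ j ≠ a ∧ k ≠ a ∧ i ≠ j ∧ i ≠ k ∧ j ≠ k := by
  decide

theorem pigeon3 : ∀ a b c d : Fin 3, a ≠ b → a ≠ c → a ≠ d → b = c ∨ b = d ∨ c = d := by
  decide

theorem no_frozen {V : Type} (r : V) (G : SimpleGraph V) (hP : IsEmpty (pathGraph 5 ↪g G))
    (c : V → Fin 3) (hc : ∀ u v, G.Adj u v → c u ≠ c v) (f : V → Fin 4)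
    (hf : ∀ u v, G.Adj u v → f u ≠ f v)
    (hs : ∀ (v : V) (i : Fin 4), i ≠ f v → ∃ w, G.Adj v w ∧ f w = i) : False := by
  obtain ⟨i, j, k, hi, hj, hk, hij, hik, hjk⟩ := others4 (f r)
  obtain ⟨x, hx, fx⟩ := hs r i hi
  obtain ⟨y, hy, fy⟩ := hs r j hj
  obtain ⟨z, hz, fz⟩ := hs r k hk
  rcases pigeon3 (c r) (c x) (c y) (c z) (hc _ _ hx) (hc _ _ hy) (hc _ _ hz) with h | h | h
  · exact core2 G hP c hc f hf hs r x y hx hy (by rw [fx, fy]; exact hij) h
  · exact core2 G hP c hc f hf hs r x z hx hz (by rw [fx, fz]; exact hik) h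
  · exact core2 G hP c hc f hf hs r y z hy hz (by rw [fy, fz]; exact hjk) h

end Pool.Agent.Q277.Froz
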